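import Mathlib
import Pool.Agent.R249.BPB.General

/-!
# The three-dimensional space

The norm on `𝕜³` of the example (after the paper proof of helper968), its unit ball, its faces and
property `PropQ`.
-/

set_option autoImplicit false

open Filter Topology

namespace Pool.Agent.R249.BPB

universe w

section Real

/-- the function `Φ` of the construction (in terms of the absolute values) -/
noncomputable def Ph (b a : ℝ) : ℝ := a * Real.exp (-((2 - b ^ 2) / a))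

theorem Ph_zero (b : ℝ) : Ph b 0 = 0 := by simp [Ph]

theorem Ph_nonneg {b a : ℝ} (ha : 0 ≤ a) : 0 ≤ Ph b a := by unfold Ph; positivity

theorem Ph_pos {b a : ℝ} (ha : 0 < a) : 0 < Ph b a := by unfold Ph; positivity

theorem Ph_alt {b a : ℝ} (ha : 0 < a) (w : ℝ) :
    Ph b a = a * Real.exp (-w) * Real.exp (w - (2 - b ^ 2) / a) := by
  unfold Ph
  rw [mul_assoc, ← Real.exp_add]
  congr 2
  ring

theorem Ph_alt2 {b a : ℝ} (ha : 0 < a) (w : ℝ) :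
    Real.exp (-w) * ((1 + w) * a - (2 - b ^ 2)) =
      a * Real.exp (-w) * (w - (2 - b ^ 2) / a + 1) := by
  field_simp
  ring

theorem Ph_key {b a : ℝ} (ha : 0 ≤ a) (hb : b ^ 2 ≤ 2) (w : ℝ) :
    Real.exp (-w) * ((1 + w) * a - (2 - b ^ 2)) ≤ Ph b a := by
  rcases ha.eq_or_lt with rfl | ha
  · rw [Ph_zero]
    have : 0 < Real.exp (-w) := Real.exp_pos _
    nlinarith
  · rw [Ph_alt ha w, Ph_alt2 ha w]
    exact mul_le_mul_of_nonneg_left (Real.add_one_le_exp _) (by positivity)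

theorem Ph_key_eq {b a : ℝ} (ha : 0 ≤ a) (hb : b ^ 2 < 2) (w : ℝ)
    (h : Ph b a ≤ Real.exp (-w) * ((1 + w) * a - (2 - b ^ 2))) : w * a = 2 - b ^ 2 := by
  rcases ha.eq_or_lt with rfl | ha
  · rw [Ph_zero] at h
    have : 0 < Real.exp (-w) := Real.exp_pos _
    nlinarith
  · by_contra hne
    have hx : w - (2 - b ^ 2) / a ≠ 0 := by
      intro h0
      apply hne
      have h1 : w = (2 - b ^ 2) / a := by linarith
      rw [h1]
      field_simp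
    rw [Ph_alt ha w, Ph_alt2 ha w] at h
    have h4 := mul_lt_mul_of_pos_left (Real.add_one_lt_exp hx)
      (by positivity : 0 < a * Real.exp (-w))
    linarith

theorem Ph_eq {b a w : ℝ} (ha : 0 < a) (hw : w * a = 2 - b ^ 2) : Ph b a = a * Real.exp (-w) := by
  unfold Ph
  rw [← hw]
  congr 2
  field_simp

theorem one_add_mul_exp {w : ℝ} : Real.exp (-w) * (1 + w) ≤ 1 := by
  have h1 := Real.add_one_le_exp w
  have h2 : Real.exp (-w) * Real.exp w = 1 := by rw [← Real.exp_add]; simp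
  have h3 : 0 < Real.exp (-w) := Real.exp_pos _
  nlinarith

end Real

section Space

/-- the 3-dimensional space of the construction -/
def XX (𝕜 : Type w) : Type w := Fin 3 → 𝕜

variable (𝕜 : Type w) [RCLike 𝕜]

instance : AddCommGroup (XX 𝕜) := inferInstanceAs (AddCommGroup (Fin 3 → 𝕜))
instance : Module 𝕜 (XX 𝕜) := inferInstanceAs (Module 𝕜 (Fin 3 → 𝕜))
instance : FiniteDimensional 𝕜 (XX 𝕜) := inferInstanceAs (FiniteDimensional 𝕜 (Fin 3 → 𝕜))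

theorem finrank_XX : Module.finrank 𝕜 (XX 𝕜) = 3 := by
  have : Module.finrank 𝕜 (Fin 3 → 𝕜) = 3 := by simp
  exact this

/-- parameters of the functionals -/
structure Par where
  τ : 𝕜
  θ : 𝕜
  w : ℝ
  hθ : ‖θ‖ ≤ 1
  hw : 0 < w

instance : TopologicalSpace (Par 𝕜) := ⊥
instance : DiscreteTopology (Par 𝕜) := ⟨rfl⟩

variable {𝕜}

/-- the denominator -/
noncomputable def cc (r w : ℝ) : ℝ := 1 + Real.exp (-w) * (2 + r ^ 2)

theorem one_le_cc (r w : ℝ) : 1 ≤ cc r w := by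
  unfold cc
  have : 0 < Real.exp (-w) := Real.exp_pos _
  nlinarith [sq_nonneg r, mul_nonneg this.le (by positivity : 0 ≤ 2 + r ^ 2)]

theorem cc_pos (r w : ℝ) : 0 < cc r w := lt_of_lt_of_le one_pos (one_le_cc r w)

/-- the functionals -/
noncomputable def hp (p : Par 𝕜) (y : XX 𝕜) : 𝕜 :=
  (((cc ‖p.τ‖ p.w)⁻¹ : ℝ) : 𝕜) * (y 2 + ((Real.exp (-p.w) * (1 + p.w) : ℝ) : 𝕜) * (p.θ * y 1) +
    ((2 * Real.exp (-p.w) : ℝ) : 𝕜) * (starRingEnd 𝕜 p.τ * y 0))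

theorem hp_le (p : Par 𝕜) (y : XX 𝕜) :
    ‖hp p y‖ ≤ (cc ‖p.τ‖ p.w)⁻¹ * (‖y 2‖ + Real.exp (-p.w) * (1 + p.w) * ‖y 1‖ +
      2 * Real.exp (-p.w) * ‖p.τ‖ * ‖y 0‖) := by
  have hc := cc_pos ‖p.τ‖ p.w
  have hw := p.hw
  unfold hp
  rw [norm_mul, RCLike.norm_ofReal, abs_of_pos (by positivity)]
  refine mul_le_mul_of_nonneg_left ?_ (by positivity)
  refine (norm_add_le _ _).trans (add_le_add ((norm_add_le _ _).trans (add_le_add le_rfl ?_)) ?_)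
  · rw [norm_mul, norm_mul, RCLike.norm_ofReal, abs_of_pos (by positivity)]
    refine mul_le_mul_of_nonneg_left ?_ (by positivity)
    calc ‖p.θ‖ * ‖y 1‖ ≤ 1 * ‖y 1‖ := mul_le_mul_of_nonneg_right p.hθ (norm_nonneg _)
      _ = ‖y 1‖ := one_mul _
  · rw [norm_mul, norm_mul, RCLike.norm_ofReal, abs_of_pos (by positivity), RCLike.norm_conj]
    rw [← mul_assoc]

theorem hp_le_sum (p : Par 𝕜) (y : XX 𝕜) : ‖hp p y‖ ≤ ‖y 0‖ + ‖y 1‖ + ‖y 2‖ := by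
  refine (hp_le p y).trans ?_
  have hc := cc_pos ‖p.τ‖ p.w
  have hc1 := one_le_cc ‖p.τ‖ p.w
  have hw := p.hw
  rw [inv_mul_le_iff₀ hc]
  have h1 : Real.exp (-p.w) * (1 + p.w) ≤ 1 := one_add_mul_exp
  have h2 : 2 * Real.exp (-p.w) * ‖p.τ‖ ≤ cc ‖p.τ‖ p.w := by
    unfold cc
    have h3 : 0 < Real.exp (-p.w) := Real.exp_pos _
    nlinarith [mul_nonneg h3.le (sq_nonneg (‖p.τ‖ - 1))]
  have e1 := mul_le_mul_of_nonneg_right (h1.trans hc1) (norm_nonneg (y 1))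
  have e2 := mul_le_mul_of_nonneg_right h2 (norm_nonneg (y 0))
  have e3 := mul_le_mul_of_nonneg_right hc1 (norm_nonneg (y 2))
  linarith

/-- the family of functionals as a bounded function -/
noncomputable def HB (y : XX 𝕜) : BoundedContinuousFunction (Par 𝕜) 𝕜 :=
  BoundedContinuousFunction.ofNormedAddCommGroupDiscrete (fun p => hp p y)
    (‖y 0‖ + ‖y 1‖ + ‖y 2‖) (fun p => hp_le_sum p y)

theorem HB_apply (y : XX 𝕜) (p : Par 𝕜) : HB y p = hp p y := rfl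

theorem add_co (y z : XX 𝕜) (i : Fin 3) : (y + z) i = y i + z i := rfl
theorem sub_co (y z : XX 𝕜) (i : Fin 3) : (y - z) i = y i - z i := rfl
theorem smul_co (a : 𝕜) (z : XX 𝕜) (i : Fin 3) : (a • z) i = a * z i := rfl

theorem hp_add (p : Par 𝕜) (y z : XX 𝕜) : hp p (y + z) = hp p y + hp p z := by
  unfold hp
  rw [add_co, add_co, add_co]
  ring

theorem hp_smul (p : Par 𝕜) (a : 𝕜) (z : XX 𝕜) : hp p (a • z) = a * hp p z := by
  unfold hp
  rw [smul_co, smul_co, smul_co]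
  ring

/-- the constant `√(5/4)⁻¹` -/
noncomputable def k0 : ℝ := (Real.sqrt (5 / 4))⁻¹

theorem k0_pos : 0 < k0 := by unfold k0; positivity

theorem k0_le : k0 ≤ 1 := by
  unfold k0
  apply inv_le_one_of_one_le₀
  rw [Real.one_le_sqrt]
  norm_num

theorem k0_sq : k0 ^ 2 = 4 / 5 := by
  unfold k0
  rw [inv_pow, Real.sq_sqrt (by norm_num)]
  norm_num

/-- the embedding which induces the norm -/
noncomputable def LL : XX 𝕜 →ₗ[𝕜]
    (EuclideanSpace 𝕜 (Fin 3)) × (𝕜 × BoundedContinuousFunction (Par 𝕜) 𝕜) where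
  toFun y := ((k0 : 𝕜) • (WithLp.toLp 2 (fun i => y i)), (y 2, HB y))
  map_add' y z := by
    refine Prod.ext ?_ (Prod.ext ?_ ?_)
    · ext i
      simp [add_co]
    · simp [add_co]
    · ext p
      simp [HB_apply, hp_add]
  map_smul' a y := by
    refine Prod.ext ?_ (Prod.ext ?_ ?_)
    · ext i
      simp [smul_co]
    · simp [smul_co]
    · ext p
      simp [HB_apply, hp_smul]

theorem LL_inj : Function.Injective (LL (𝕜 := 𝕜)) := by
  intro y z h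
  have h1 : ((k0 : 𝕜) • (WithLp.toLp 2 (fun i => y i)) : EuclideanSpace 𝕜 (Fin 3)) =
    (k0 : 𝕜) • (WithLp.toLp 2 (fun i => z i)) := congrArg Prod.fst h
  have hk : (k0 : 𝕜) ≠ 0 := by exact_mod_cast k0_pos.ne'
  have h2 := smul_right_injective _ hk h1
  have h3 := congrArg (WithLp.ofLp) h2
  exact h3

noncomputable instance : NormedAddCommGroup (XX 𝕜) :=
  NormedAddCommGroup.induced (XX 𝕜) _ (LL (𝕜 := 𝕜)) LL_inj

noncomputable instance : NormedSpace 𝕜 (XX 𝕜) :=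
  NormedSpace.induced 𝕜 (XX 𝕜) _ (LL (𝕜 := 𝕜))

theorem norm_le_iff (y : XX 𝕜) (r : ℝ) (hr : 0 ≤ r) : ‖y‖ ≤ r ↔
    ‖y 0‖ ^ 2 + ‖y 1‖ ^ 2 + ‖y 2‖ ^ 2 ≤ 5 / 4 * r ^ 2 ∧ ‖y 2‖ ≤ r ∧ ∀ p : Par 𝕜, ‖hp p y‖ ≤ r := by
  have h0 : ‖y‖ = ‖LL y‖ := rfl
  rw [h0, norm_prod_le_iff, norm_prod_le_iff]
  have h1 : ‖(LL y).1‖ ≤ r ↔ ‖y 0‖ ^ 2 + ‖y 1‖ ^ 2 + ‖y 2‖ ^ 2 ≤ 5 / 4 * r ^ 2 := by
    have e1 : ‖(LL y).1‖ ^ 2 = 4 / 5 * (‖y 0‖ ^ 2 + ‖y 1‖ ^ 2 + ‖y 2‖ ^ 2) := by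
      have : (LL y).1 = (k0 : 𝕜) • (WithLp.toLp 2 (fun i => y i)) := rfl
      rw [this, norm_smul, mul_pow, EuclideanSpace.norm_sq_eq, Fin.sum_univ_three,
        RCLike.norm_ofReal, abs_of_pos k0_pos, k0_sq]
    rw [← abs_of_nonneg (norm_nonneg (LL y).1), ← abs_of_nonneg hr, ← sq_le_sq, e1,
      abs_of_nonneg hr]
    constructor <;> intro h <;> linarith
  have h2 : ‖(LL y).2.2‖ ≤ r ↔ ∀ p : Par 𝕜, ‖hp p y‖ ≤ r := by
    have : (LL y).2.2 = HB y := rfl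
    rw [this, BoundedContinuousFunction.norm_le hr]
    rfl
  rw [h1, h2]
  rfl

/-- the explicit description of the unit ball -/
def InB (y : XX 𝕜) : Prop :=
  ‖y 0‖ ^ 2 + ‖y 1‖ ^ 2 + ‖y 2‖ ^ 2 ≤ 5 / 4 ∧ ‖y 2‖ + Ph ‖y 0‖ ‖y 1‖ ≤ 1

theorem InB.key {y : XX 𝕜} (h : InB y) (r w : ℝ) :
    ‖y 2‖ + Real.exp (-w) * (1 + w) * ‖y 1‖ + 2 * Real.exp (-w) * r * ‖y 0‖ ≤ cc r w := by
  obtain ⟨h1, h2⟩ := h
  have hb : ‖y 0‖ ^ 2 ≤ 2 := by linarith [sq_nonneg ‖y 1‖, sq_nonneg ‖y 2‖]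
  have h3 := Ph_key (norm_nonneg (y 1)) hb w
  have h4 : 0 < Real.exp (-w) := Real.exp_pos _
  have h5 := mul_nonneg h4.le (sq_nonneg (‖y 0‖ - r))
  unfold cc
  linarith

theorem norm_le_one_iff (y : XX 𝕜) : ‖y‖ ≤ 1 ↔ InB y := by
  rw [norm_le_iff y 1 zero_le_one]
  constructor
  · rintro ⟨h1, h2, h3⟩
    refine ⟨by linarith, ?_⟩
    rcases (norm_nonneg (y 1)).eq_or_lt with h0 | h0
    · rw [← h0, Ph_zero, add_zero]
      exact h2
    · have hb : ‖y 0‖ ^ 2 < 2 := by linarith [sq_nonneg ‖y 1‖, sq_nonneg ‖y 2‖]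
      set w : ℝ := (2 - ‖y 0‖ ^ 2) / ‖y 1‖ with hw
      have hw0 : 0 < w := by
        rw [hw]
        exact div_pos (by linarith) h0
      have hwa : w * ‖y 1‖ = 2 - ‖y 0‖ ^ 2 := by rw [hw]; field_simp
      obtain ⟨u, hu, huy⟩ := exists_rot (y 2)
      obtain ⟨u1, hu1, huy1⟩ := exists_rot (y 1)
      have hcu := conj_mul_self hu
      let p : Par 𝕜 := ⟨u * y 0, (starRingEnd 𝕜 u) * u1, w, by
        rw [norm_mul, RCLike.norm_conj, hu, hu1, mul_one], hw0⟩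
      have h4 := h3 p
      have h5 : u * hp p y = (((cc ‖y 0‖ w)⁻¹ * (‖y 2‖ + Real.exp (-w) * (1 + w) * ‖y 1‖ +
          2 * Real.exp (-w) * ‖y 0‖ ^ 2) : ℝ) : 𝕜) := by
        have e1 : ‖p.τ‖ = ‖y 0‖ := by
          change ‖u * y 0‖ = _
          rw [norm_mul, hu, one_mul]
        have e2 : u * ((((cc ‖y 0‖ w)⁻¹ : ℝ) : 𝕜) * (y 2 +
          ((Real.exp (-w) * (1 + w) : ℝ) : 𝕜) * (((starRingEnd 𝕜 u) * u1) * y 1) +
            ((2 * Real.exp (-w) : ℝ) : 𝕜) * (starRingEnd 𝕜 (u * y 0) * y 0))) =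
            (((cc ‖y 0‖ w)⁻¹ : ℝ) : 𝕜) * (u * y 2 +
          ((Real.exp (-w) * (1 + w) : ℝ) : 𝕜) * (((starRingEnd 𝕜 u) * u) * (u1 * y 1)) +
            ((2 * Real.exp (-w) : ℝ) : 𝕜) * (((starRingEnd 𝕜 u) * u) *
              (starRingEnd 𝕜 (y 0) * y 0))) := by
          rw [map_mul]
          ring
        have e3 : hp p y = (((cc ‖y 0‖ w)⁻¹ : ℝ) : 𝕜) * (y 2 +
          ((Real.exp (-w) * (1 + w) : ℝ) : 𝕜) * (((starRingEnd 𝕜 u) * u1) * y 1) +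
            ((2 * Real.exp (-w) : ℝ) : 𝕜) * (starRingEnd 𝕜 (u * y 0) * y 0)) := by
          unfold hp
          rw [e1]
        rw [e3, e2, hcu, one_mul, one_mul, huy, huy1, RCLike.conj_mul]
        push_cast
        ring
      have h6 : ‖hp p y‖ = (cc ‖y 0‖ w)⁻¹ * (‖y 2‖ + Real.exp (-w) * (1 + w) * ‖y 1‖ +
          2 * Real.exp (-w) * ‖y 0‖ ^ 2) := by
        have e1 : ‖u * hp p y‖ = ‖hp p y‖ := by rw [norm_mul, hu, one_mul]
        have hc := cc_pos ‖y 0‖ w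
        rw [← e1, h5, RCLike.norm_ofReal, abs_of_nonneg (by positivity)]
      rw [h6, inv_mul_le_iff₀ (cc_pos _ _), mul_one] at h4
      rw [Ph_eq h0 hwa]
      unfold cc at h4
      have h7 : Real.exp (-w) * (1 + w) * ‖y 1‖ = ‖y 1‖ * Real.exp (-w) +
          Real.exp (-w) * (2 - ‖y 0‖ ^ 2) := by
        rw [← hwa]; ring
      linarith
  · intro h
    obtain ⟨h1, h2⟩ := h
    refine ⟨by linarith, ?_, fun p => ?_⟩
    · have := Ph_nonneg (b := ‖y 0‖) (norm_nonneg (y 1))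
      linarith
    · refine (hp_le p y).trans ?_
      rw [inv_mul_le_iff₀ (cc_pos _ _), mul_one]
      exact InB.key ⟨h1, h2⟩ _ _

theorem norm_le_sum (y : XX 𝕜) : ‖y‖ ≤ ‖y 0‖ + ‖y 1‖ + ‖y 2‖ := by
  rw [norm_le_iff y _ (by positivity)]
  refine ⟨?_, ?_, fun p => hp_le_sum p y⟩
  · have h1 := mul_nonneg (norm_nonneg (y 0)) (norm_nonneg (y 1))
    have h2 := mul_nonneg (norm_nonneg (y 0)) (norm_nonneg (y 2))
    have h3 := mul_nonneg (norm_nonneg (y 1)) (norm_nonneg (y 2))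
    have h4 := sq_nonneg ‖y 0‖
    have h5 := sq_nonneg ‖y 1‖
    have h6 := sq_nonneg ‖y 2‖
    linarith
  · have := norm_nonneg (y 0)
    have := norm_nonneg (y 1)
    linarith

theorem co2_le_norm (y : XX 𝕜) : ‖y 2‖ ≤ ‖y‖ :=
  ((norm_le_iff y ‖y‖ (norm_nonneg _)).1 le_rfl).2.1

/-- the point with the given coordinates -/
def pt (t s z : 𝕜) : XX 𝕜 := ![t, s, z]

omit [RCLike 𝕜] in
@[simp] theorem pt_0 (t s z : 𝕜) : pt t s z 0 = t := rfl
omit [RCLike 𝕜] in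
@[simp] theorem pt_1 (t s z : 𝕜) : pt t s z 1 = s := rfl
omit [RCLike 𝕜] in
@[simp] theorem pt_2 (t s z : 𝕜) : pt t s z 2 = z := rfl

omit [RCLike 𝕜] in
theorem XX_ext {y z : XX 𝕜} (h0 : y 0 = z 0) (h1 : y 1 = z 1) (h2 : y 2 = z 2) : y = z := by
  funext i
  fin_cases i
  · exact h0
  · exact h1
  · exact h2

theorem par_law (a b : 𝕜) : ‖(a + b) / 2‖ ^ 2 = (‖a‖ ^ 2 + ‖b‖ ^ 2) / 2 - ‖a - b‖ ^ 2 / 4 := by
  have h := parallelogram_law_with_norm 𝕜 a b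
  have h2 : ‖(a + b) / 2‖ = ‖a + b‖ / 2 := by
    rw [norm_div]
    congr 1
    exact RCLike.norm_ofNat 2
  rw [h2]
  nlinarith

theorem half_le (a b : 𝕜) : ‖(a + b) / 2‖ ≤ (‖a‖ + ‖b‖) / 2 := by
  have h2 : ‖(a + b) / 2‖ = ‖a + b‖ / 2 := by
    rw [norm_div]
    congr 1
    exact RCLike.norm_ofNat 2
  rw [h2]
  have := norm_add_le a b
  linarith

/-- a point of the ball where a norm-one functional is `1` is not in the interior. -/
theorem on_boundary (g : XX 𝕜 →L[𝕜] 𝕜) (hg : ‖g‖ ≤ 1) (m : XX 𝕜) (hm : InB m) (hgm : g m = 1) :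
    ‖m 0‖ ^ 2 + ‖m 1‖ ^ 2 + ‖m 2‖ ^ 2 = 5 / 4 ∨ ‖m 2‖ + Ph ‖m 0‖ ‖m 1‖ = 1 := by
  by_contra hcon
  push Not at hcon
  obtain ⟨hc1, hc2⟩ := hcon
  have h1 : ‖m 0‖ ^ 2 + ‖m 1‖ ^ 2 + ‖m 2‖ ^ 2 < 5 / 4 := lt_of_le_of_ne hm.1 hc1
  have h2 : ‖m 2‖ + Ph ‖m 0‖ ‖m 1‖ < 1 := lt_of_le_of_ne hm.2 hc2
  have e1 : ∀ᶠ δ in 𝓝 (0 : ℝ), ((1 + δ) * ‖m 0‖) ^ 2 + ((1 + δ) * ‖m 1‖) ^ 2 +
      ((1 + δ) * ‖m 2‖) ^ 2 < 5 / 4 := by
    have hcont : Continuous (fun δ : ℝ => ((1 + δ) * ‖m 0‖) ^ 2 + ((1 + δ) * ‖m 1‖) ^ 2 +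
      ((1 + δ) * ‖m 2‖) ^ 2) := by fun_prop
    have := hcont.tendsto 0
    simp only [add_zero, one_mul] at this
    exact this.eventually_lt_const h1
  have e2 : ∀ᶠ δ in 𝓝 (0 : ℝ), (1 + δ) * ‖m 2‖ + Ph ((1 + δ) * ‖m 0‖) ((1 + δ) * ‖m 1‖) < 1 := by
    have hcont : ContinuousAt (fun δ : ℝ => (1 + δ) * ‖m 2‖ +
        Ph ((1 + δ) * ‖m 0‖) ((1 + δ) * ‖m 1‖)) 0 := by
      rcases (norm_nonneg (m 1)).eq_or_lt with h0 | h0
      · simp only [← h0, mul_zero, Ph_zero, add_zero]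
        fun_prop
      · unfold Ph
        refine ContinuousAt.add (by fun_prop) (ContinuousAt.mul (by fun_prop) ?_)
        refine Real.continuous_exp.continuousAt.comp (ContinuousAt.neg ?_)
        exact ContinuousAt.div (by fun_prop) (by fun_prop) (by simpa using h0.ne')
    have h3 : (1 + (0 : ℝ)) * ‖m 2‖ + Ph ((1 + 0) * ‖m 0‖) ((1 + 0) * ‖m 1‖) < 1 := by
      simpa using h2
    exact hcont.eventually_lt_const h3
  obtain ⟨r, hr, hr2⟩ := Metric.eventually_nhds_iff.1 (e1.and e2)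
  have h3 := hr2 (y := r / 2) (by
    rw [dist_zero_right, Real.norm_eq_abs, abs_of_pos (by linarith)]; linarith)
  have hn : ∀ i : Fin 3, ‖((((1 + r / 2 : ℝ) : 𝕜) • m) : XX 𝕜) i‖ = (1 + r / 2) * ‖m i‖ := by
    intro i
    rw [smul_co, norm_mul, RCLike.norm_ofReal, abs_of_pos (by linarith)]
  have h4 : InB ((((1 + r / 2 : ℝ) : 𝕜) • m) : XX 𝕜) := by
    refine ⟨?_, ?_⟩
    · rw [hn, hn, hn]
      exact h3.1.le
    · rw [hn, hn, hn]
      exact h3.2.le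
  have h5 := (norm_le_one_iff _).2 h4
  have h6 := g.le_opNorm ((((1 + r / 2 : ℝ) : 𝕜) • m) : XX 𝕜)
  rw [map_smul, hgm, smul_eq_mul, mul_one, RCLike.norm_ofReal, abs_of_pos (by linarith)] at h6
  have h7 : ‖g‖ * ‖((((1 + r / 2 : ℝ) : 𝕜) • m) : XX 𝕜)‖ ≤ 1 * 1 :=
    mul_le_mul hg h5 (norm_nonneg _) zero_le_one
  linarith

/-- the faces of the unit ball -/
theorem face (g : XX 𝕜 →L[𝕜] 𝕜) (hg : ‖g‖ ≤ 1) (y z : XX 𝕜) (hy : ‖y‖ ≤ 1) (hz : ‖z‖ ≤ 1)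
    (hgy : g y = 1) (hgz : g z = 1) (hne : y ≠ z) :
    ‖y 0‖ ≤ 1 / 2 ∧ y 1 = 0 ∧ ‖y 2‖ = 1 ∧ ∀ u, g u = (starRingEnd 𝕜 (y 2)) * u 2 := by
  have hyB := (norm_le_one_iff y).1 hy
  have hzB := (norm_le_one_iff z).1 hz
  set m : XX 𝕜 := ((2⁻¹ : ℝ) : 𝕜) • (y + z) with hm
  have hmi : ∀ i, m i = (y i + z i) / 2 := by
    intro i
    rw [hm, smul_co, add_co]
    push_cast
    ring
  have hgm : g m = 1 := by
    rw [hm, map_smul, map_add, hgy, hgz, smul_eq_mul]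
    push_cast
    norm_num
  have hmn : ‖m‖ ≤ 1 := by
    rw [hm, norm_smul, RCLike.norm_ofReal, abs_of_pos (by norm_num)]
    have := norm_add_le y z
    linarith
  have hmB := (norm_le_one_iff m).1 hmn
  have p0 := par_law (y 0) (z 0)
  have p1 := par_law (y 1) (z 1)
  have p2 := par_law (y 2) (z 2)
  rw [← hmi] at p0 p1 p2
  have hne' : ¬ (‖y 0 - z 0‖ ^ 2 = 0 ∧ ‖y 1 - z 1‖ ^ 2 = 0 ∧ ‖y 2 - z 2‖ ^ 2 = 0) := by
    rintro ⟨h1, h2, h3⟩
    apply hne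
    have q : ∀ a b : 𝕜, ‖a - b‖ ^ 2 = 0 → a = b := by
      intro a b h
      have := pow_eq_zero_iff (two_ne_zero) |>.1 h
      exact sub_eq_zero.1 (norm_eq_zero.1 this)
    exact XX_ext (q _ _ h1) (q _ _ h2) (q _ _ h3)
  have n0 := sq_nonneg ‖y 0 - z 0‖
  have n1 := sq_nonneg ‖y 1 - z 1‖
  have n2 := sq_nonneg ‖y 2 - z 2‖
  have hb1 := hyB.1
  have hb2 := hzB.1
  rcases on_boundary g hg m hmB hgm with hcase | hcase
  · exfalso
    apply hne'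
    refine ⟨?_, ?_, ?_⟩ <;> linarith
  have hm1 := half_le (y 1) (z 1)
  have hm2 := half_le (y 2) (z 2)
  rw [← hmi] at hm1 hm2
  have bm : ‖m 0‖ ^ 2 < 2 := by linarith [sq_nonneg ‖m 1‖, sq_nonneg ‖m 2‖, hmB.1]
  have by' : ‖y 0‖ ^ 2 < 2 := by linarith [sq_nonneg ‖y 1‖, sq_nonneg ‖y 2‖]
  have bz' : ‖z 0‖ ^ 2 < 2 := by linarith [sq_nonneg ‖z 1‖, sq_nonneg ‖z 2‖]
  rcases (norm_nonneg (m 1)).eq_or_lt with h0 | h0
  · -- `m 1 = 0`
    rw [← h0, Ph_zero, add_zero] at hcase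
    have hPy := Ph_nonneg (b := ‖y 0‖) (norm_nonneg (y 1))
    have hPz := Ph_nonneg (b := ‖z 0‖) (norm_nonneg (z 1))
    have hy2 : ‖y 2‖ ≤ 1 := by linarith [hyB.2]
    have hz2 : ‖z 2‖ ≤ 1 := by linarith [hzB.2]
    have hy2' : ‖y 2‖ ^ 2 ≤ 1 := pow_le_one₀ (norm_nonneg _) hy2
    have hz2' : ‖z 2‖ ^ 2 ≤ 1 := pow_le_one₀ (norm_nonneg _) hz2
    rw [hcase] at p2
    have hd2 : ‖y 2 - z 2‖ ^ 2 = 0 := by linarith
    have hyz2 : y 2 = z 2 := by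
      have := pow_eq_zero_iff (two_ne_zero) |>.1 hd2
      exact sub_eq_zero.1 (norm_eq_zero.1 this)
    have hy2n : ‖y 2‖ = 1 := by
      have : m 2 = y 2 := by rw [hmi, hyz2]; ring
      rw [← this]
      exact hcase
    have hz2n : ‖z 2‖ = 1 := by rw [← hyz2]; exact hy2n
    have hy1 : y 1 = 0 := by
      by_contra hcon
      have := Ph_pos (b := ‖y 0‖) (norm_pos_iff.2 hcon)
      linarith [hyB.2]
    have hz1 : z 1 = 0 := by
      by_contra hcon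
      have := Ph_pos (b := ‖z 0‖) (norm_pos_iff.2 hcon)
      linarith [hzB.2]
    have hy0 : ‖y 0‖ ≤ 1 / 2 := by
      rw [hy1, hy2n] at hb1
      simp only [norm_zero] at hb1
      have h1 : ‖y 0‖ ^ 2 ≤ (1 / 2) ^ 2 := by linarith
      have h2 := sq_le_sq.1 h1
      rw [abs_of_nonneg (norm_nonneg _), abs_of_nonneg (by norm_num)] at h2
      exact h2
    refine ⟨hy0, hy1, hy2n, ?_⟩
    -- the functional
    have hgen : ∀ u : XX 𝕜, g u = u 0 * g (pt 1 0 0) + u 1 * g (pt 0 1 0) + u 2 * g (pt 0 0 1) := by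
      intro u
      have : u = (u 0) • pt 1 0 0 + (u 1) • pt 0 1 0 + (u 2) • pt 0 0 1 := by
        apply XX_ext <;> simp [add_co, smul_co]
      conv_lhs => rw [this]
      simp only [map_add, map_smul, smul_eq_mul]
    have hg0 : g (pt 1 0 0) = 0 := by
      have e1 := hgen y
      have e2 := hgen z
      rw [hgy, hy1] at e1
      rw [hgz, hz1, ← hyz2] at e2
      have e3 : (y 0 - z 0) * g (pt 1 0 0) = 0 := by linear_combination e2 - e1
      rcases mul_eq_zero.1 e3 with e4 | e4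
      · exfalso
        apply hne
        exact XX_ext (sub_eq_zero.1 e4) (by rw [hy1, hz1]) hyz2
      · exact e4
    have hcy := conj_mul_self hy2n
    have hg2 : g (pt 0 0 1) = starRingEnd 𝕜 (y 2) := by
      have e1 := hgen y
      rw [hgy, hy1, hg0] at e1
      have e2 : y 2 * g (pt 0 0 1) = 1 := by linear_combination -e1
      calc g (pt 0 0 1) = (starRingEnd 𝕜 (y 2) * y 2) * g (pt 0 0 1) := by rw [hcy, one_mul]
        _ = starRingEnd 𝕜 (y 2) * (y 2 * g (pt 0 0 1)) := by ring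
        _ = _ := by rw [e2, mul_one]
    have hg1 : g (pt 0 1 0) = 0 := by
      by_contra hcon
      have hpos : 0 < ‖g (pt 0 1 0)‖ := norm_pos_iff.2 hcon
      obtain ⟨u, hu, hug⟩ := exists_rot (g (pt 0 1 0))
      set r : ℝ := min (1 / 2) ‖g (pt 0 1 0)‖ with hr
      have hr0 : 0 < r := lt_min (by norm_num) hpos
      have hr1 : r ≤ 1 / 2 := min_le_left _ _
      have hr2 : r ≤ ‖g (pt 0 1 0)‖ := min_le_right _ _
      have hexp : Real.exp (-(2 / r)) ≤ r / 2 := by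
        have e1 := Real.add_one_le_exp (2 / r)
        have e2 : Real.exp (-(2 / r)) * Real.exp (2 / r) = 1 := by rw [← Real.exp_add]; simp
        have e3 : 0 < Real.exp (-(2 / r)) := Real.exp_pos _
        have e4 : Real.exp (-(2 / r)) * (2 / r) ≤ 1 := by
          rw [← e2]
          exact mul_le_mul_of_nonneg_left (by linarith) e3.le
        calc Real.exp (-(2 / r)) = (Real.exp (-(2 / r)) * (2 / r)) * (r / 2) := by field_simp
          _ ≤ 1 * (r / 2) := mul_le_mul_of_nonneg_right e4 (by positivity)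
          _ = r / 2 := one_mul _
      set q : ℝ := Ph 0 r with hq
      have hq' : q = r * Real.exp (-(2 / r)) := by
        rw [hq]
        unfold Ph
        norm_num
      have hq0 : 0 < q := Ph_pos hr0
      have hq1 : q ≤ 1 / 4 * 1 := by
        rw [hq']
        have h1 : Real.exp (-(2 / r)) ≤ 1 / 4 := by linarith
        have h2 : r * Real.exp (-(2 / r)) ≤ (1 / 2) * (1 / 4) :=
          mul_le_mul hr1 h1 (Real.exp_pos _).le (by norm_num)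
        linarith
      have hin : InB (pt 0 (((r : ℝ) : 𝕜) * u) (((1 - q : ℝ) : 𝕜) * y 2)) := by
        have a1 : ‖((r : ℝ) : 𝕜) * u‖ = r := by
          rw [norm_mul, hu, RCLike.norm_ofReal, abs_of_pos hr0, mul_one]
        have a2 : ‖((1 - q : ℝ) : 𝕜) * y 2‖ = 1 - q := by
          rw [norm_mul, hy2n, RCLike.norm_ofReal, abs_of_nonneg (by linarith), mul_one]
        refine ⟨?_, ?_⟩
        · rw [pt_0, pt_1, pt_2, a1, a2, norm_zero]
          have h1 : r ^ 2 ≤ (1 / 2) ^ 2 := pow_le_pow_left₀ hr0.le hr1 2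
          have h2 : (1 - q) ^ 2 ≤ 1 := pow_le_one₀ (by linarith) (by linarith)
          linarith
        · rw [pt_0, pt_1, pt_2, a1, a2, norm_zero, ← hq]
          linarith
      have h5 := (norm_le_one_iff _).2 hin
      have h6 := g.le_opNorm (pt 0 (((r : ℝ) : 𝕜) * u) (((1 - q : ℝ) : 𝕜) * y 2))
      have h7 : ‖g‖ * ‖pt 0 (((r : ℝ) : 𝕜) * u) (((1 - q : ℝ) : 𝕜) * y 2)‖ ≤ 1 * 1 :=
        mul_le_mul hg h5 (norm_nonneg _) zero_le_one
      have h8 : g (pt 0 (((r : ℝ) : 𝕜) * u) (((1 - q : ℝ) : 𝕜) * y 2)) =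
          ((r * ‖g (pt 0 1 0)‖ + (1 - q) : ℝ) : 𝕜) := by
        rw [hgen, pt_0, pt_1, pt_2, hg2]
        push_cast
        linear_combination (r : 𝕜) * hug + (1 - (q : 𝕜)) * hcy
      rw [h8, RCLike.norm_ofReal, abs_of_nonneg (by
        have := mul_pos hr0 hpos
        linarith)] at h6
      have h9 : r * ‖g (pt 0 1 0)‖ ≤ r * Real.exp (-(2 / r)) := by
        rw [← hq']
        linarith
      have h10 := le_of_mul_le_mul_left h9 hr0
      linarith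
    intro u
    rw [hgen u, hg0, hg1, hg2]
    ring
  · exfalso
    set w : ℝ := (2 - ‖m 0‖ ^ 2) / ‖m 1‖ with hw
    have hw0 : 0 < w := by
      rw [hw]
      exact div_pos (by linarith) h0
    have hwa : w * ‖m 1‖ = 2 - ‖m 0‖ ^ 2 := by rw [hw]; field_simp
    have hPm := Ph_eq h0 hwa
    have hE : 0 < Real.exp (-w) := Real.exp_pos _
    have ky := Ph_key (norm_nonneg (y 1)) by'.le w
    have kz := Ph_key (norm_nonneg (z 1)) bz'.le w
    have hym := hyB.2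
    have hzm := hzB.2
    rw [hPm] at hcase
    -- the total inequality
    have t1 : Real.exp (-w) * ((1 + w) * ‖m 1‖) ≤
        Real.exp (-w) * ((1 + w) * ((‖y 1‖ + ‖z 1‖) / 2)) := by
      apply mul_le_mul_of_nonneg_left _ hE.le
      exact mul_le_mul_of_nonneg_left hm1 (by linarith)
    have t2 : Real.exp (-w) * ((1 + w) * ‖m 1‖) =
        Real.exp (-w) * ‖m 1‖ + Real.exp (-w) * (2 - ‖m 0‖ ^ 2) := by
      rw [← hwa]; ring
    have t3 : Real.exp (-w) * ‖m 0‖ ^ 2 = Real.exp (-w) * ((‖y 0‖ ^ 2 + ‖z 0‖ ^ 2) / 2) -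
        Real.exp (-w) * ‖y 0 - z 0‖ ^ 2 / 4 := by
      rw [p0]; ring
    have tn : 0 ≤ Real.exp (-w) * ‖y 0 - z 0‖ ^ 2 := by positivity
    have c0 : Real.exp (-w) * ‖y 0 - z 0‖ ^ 2 = 0 := by
      apply le_antisymm _ tn
      linarith
    have cy : Ph ‖y 0‖ ‖y 1‖ ≤ Real.exp (-w) * ((1 + w) * ‖y 1‖ - (2 - ‖y 0‖ ^ 2)) := by
      linarith
    have cz : Ph ‖z 0‖ ‖z 1‖ ≤ Real.exp (-w) * ((1 + w) * ‖z 1‖ - (2 - ‖z 0‖ ^ 2)) := by
      linarith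
    have ey := Ph_key_eq (norm_nonneg (y 1)) by' w cy
    have ez := Ph_key_eq (norm_nonneg (z 1)) bz' w cz
    have d0 : ‖y 0 - z 0‖ ^ 2 = 0 := by
      rcases mul_eq_zero.1 c0 with h | h
      · exact absurd h hE.ne'
      · exact h
    have yz0 : y 0 = z 0 := by
      have := pow_eq_zero_iff (two_ne_zero) |>.1 d0
      exact sub_eq_zero.1 (norm_eq_zero.1 this)
    have m0 : m 0 = y 0 := by rw [hmi, yz0]; ring
    have m0' : m 0 = z 0 := by rw [hmi, yz0]; ring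
    have s1 : ‖y 1‖ = ‖m 1‖ := by
      have : w * ‖y 1‖ = w * ‖m 1‖ := by rw [ey, hwa, m0]
      exact mul_left_cancel₀ hw0.ne' this
    have s2 : ‖z 1‖ = ‖m 1‖ := by
      have : w * ‖z 1‖ = w * ‖m 1‖ := by rw [ez, hwa, m0']
      exact mul_left_cancel₀ hw0.ne' this
    have d1 : ‖y 1 - z 1‖ ^ 2 = 0 := by
      rw [s1, s2] at p1
      linarith
    have q1 : ‖y 2‖ ≤ ‖m 2‖ := by
      rw [← m0, s1, hPm] at hym
      linarith
    have q2 : ‖z 2‖ ≤ ‖m 2‖ := by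
      rw [← m0', s2, hPm] at hzm
      linarith
    have d2 : ‖y 2 - z 2‖ ^ 2 = 0 := by
      have r1 : ‖y 2‖ ^ 2 ≤ ‖m 2‖ ^ 2 := pow_le_pow_left₀ (norm_nonneg _) q1 2
      have r2 : ‖z 2‖ ^ 2 ≤ ‖m 2‖ ^ 2 := pow_le_pow_left₀ (norm_nonneg _) q2 2
      linarith
    exact hne' ⟨d0, d1, d2⟩

end Space

end Pool.Agent.R249.BPB
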